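import Pool.Agent.L5helper21.RG.Heis3
import Pool.Agent.W467.FG.F

/-!
# Rank two bundles with the symmetries of the Horrocks-Mumford bundle

Let `N = n + 1` be a prime number, `N ≥ 5`, and let `E` be a simple rank two bundle on `P^n` which
does not split and which is isomorphic to its pullbacks under the cyclic shift
`x_i ↦ x_{i+1}` of the coordinates, under `x_i ↦ ζ^i x_i`, where `ζ` is a primitive `N`-th root
of unity, and under `x_i ↦ x_{-i}`.  These maps generate a group `G` of order `2 N^3`, the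
Heisenberg group of order `N^3` extended by the involution.  Then

* `E` is isomorphic to a bundle `F`, the kernel of a map `⊕ O(β_i) → ⊕ O(γ_k)`, all of whose
  matrix entries are invariant under `G`,
* there is an integer `b` such that all `β_i` are congruent to `b` modulo `N`, and
* `c_1(E)` is congruent to `2 b` modulo `N` (`c_1` is given here by the splitting types of the
  restrictions to lines).

The group `G` has no fixed vector.  It contains no reflections.
-/

set_option autoImplicit false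

namespace Pool.Agent.Results.MP_745d3a_ag.HeisenbergSymmetry

open MvPolynomial H960VB

/-- the vectors of polynomials -/
abbrev Vec {n : ℕ} (E : Bundle2 n) : Type := Fin E.a → MvPolynomial (Fin (n + 1)) ℂ

/-- the polynomial `x ↦ p (g x)` -/
noncomputable def subst {n : ℕ} (g : Matrix (Fin (n + 1)) (Fin (n + 1)) ℂ)
    (p : MvPolynomial (Fin (n + 1)) ℂ) : MvPolynomial (Fin (n + 1)) ℂ :=
  aeval (fun s => ∑ t, C (g s t) * X t) p

/-- `Φ` is a lift to `E` of the automorphism `x ↦ g x` of `P^n`, that is, an isomorphism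
`g^* E ≅ E` in terms of sections: it maps sections of `E(d)` to sections of `E(d)`, is additive
and injective, and satisfies `Φ (p G) = (p ∘ g) Φ G` for all homogeneous polynomials `p`. -/
structure IsLift {n : ℕ} (E : Bundle2 n) (g : Matrix (Fin (n + 1)) (Fin (n + 1)) ℂ)
    (Φ : Vec E → Vec E) : Prop where
  sec : ∀ d G, E.IsSection d G → E.IsSection d (Φ G)
  add : ∀ d G G', E.IsSection d G → E.IsSection d G' → Φ (G + G') = Φ G + Φ G'
  semi : ∀ d e p G, E.IsSection d G → HomZ p e → Φ (p • G) = subst g p • Φ G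
  inj : ∀ d G, E.IsSection d G → Φ G = 0 → G = 0

/-- `E` is simple: the endomorphisms of `E`, in terms of sections, are the multiplications by
constants -/
def IsSimple {n : ℕ} (E : Bundle2 n) : Prop :=
  ∀ Ψ : ℤ → Vec E → Vec E, (∀ d G, E.IsSection d G → E.IsSection d (Ψ d G)) →
    (∀ d G G', E.IsSection d G → E.IsSection d G' → Ψ d (G + G') = Ψ d G + Ψ d G') →
    (∀ d e (p : MvPolynomial (Fin (n + 1)) ℂ) G, E.IsSection d G → HomZ p e →
      Ψ (d + e) (p • G) = p • Ψ d G) →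
    ∃ c : ℂ, ∀ d G, E.IsSection d G → Ψ d G = c • G

/-- `Ψ` is an isomorphism `E ≅ F` in terms of sections: it is additive, linear over the
polynomial ring, and maps the sections of `E(d)` bijectively to the sections of `F(d)`, for
all `d` -/
structure IsIso {n : ℕ} (E F : Bundle2 n) (Ψ : Vec E → Vec F) : Prop where
  sec : ∀ d G, E.IsSection d G → F.IsSection d (Ψ G)
  add : ∀ d G G', E.IsSection d G → E.IsSection d G' → Ψ (G + G') = Ψ G + Ψ G'
  mul : ∀ d (p : MvPolynomial (Fin (n + 1)) ℂ) G, E.IsSection d G → Ψ (p • G) = p • Ψ G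
  bij : ∀ d H, F.IsSection d H → ∃! G, E.IsSection d G ∧ Ψ G = H

/-- the matrix of `x ↦ (i ↦ x_{i+1})`, the indices are taken modulo `n + 1` -/
def shiftMat (n : ℕ) : Matrix (Fin (n + 1)) (Fin (n + 1)) ℂ :=
  Matrix.of fun i j => if j = i + 1 then 1 else 0

/-- the matrix of `x ↦ (i ↦ ζ^i x_i)` -/
def clockMat (n : ℕ) (ζ : ℂ) : Matrix (Fin (n + 1)) (Fin (n + 1)) ℂ :=
  Matrix.of fun i j => if j = i then ζ ^ (i : ℕ) else 0

/-- the matrix of `x ↦ (i ↦ x_{-i})`, the indices are taken modulo `n + 1` -/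
def invMat (n : ℕ) : Matrix (Fin (n + 1)) (Fin (n + 1)) ℂ :=
  Matrix.of fun i j => if j = -i then 1 else 0

/-- the three symmetries -/
def symmetries (n : ℕ) (ζ : ℂ) : Set (Matrix (Fin (n + 1)) (Fin (n + 1)) ℂ) :=
  {shiftMat n, clockMat n ζ, invMat n}

theorem subst_eq {n : ℕ} (g : Matrix (Fin (n + 1)) (Fin (n + 1)) ℂ)
    (p : MvPolynomial (Fin (n + 1)) ℂ) : subst g p = lsub g.mulVecLin p := by
  unfold subst lsub
  congr 2
  funext s
  refine Finset.sum_congr rfl fun t _ => ?_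
  congr 2
  rw [Matrix.mulVecLin_apply, Matrix.mulVec_single_one]
  rfl

/-- the lift as an operator in the sense of the library -/
def gop {n : ℕ} {E : Bundle2 n} {g : Matrix (Fin (n + 1)) (Fin (n + 1)) ℂ}
    {Φ : Vec E → Vec E} (h : IsLift E g Φ) : Pool.Agent.W467.FO.GOp E g.mulVecLin where
  D := Φ
  sec := fun d G hG => Pool.Agent.W615.sec_iff.2 (h.sec d G (Pool.Agent.W615.sec_iff.1 hG))
  add := fun d G G' hG hG' =>
    h.add d G G' (Pool.Agent.W615.sec_iff.1 hG) (Pool.Agent.W615.sec_iff.1 hG')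
  mul := by
    intro d e p G hG hp
    rw [← subst_eq]
    exact h.semi d e p G (Pool.Agent.W615.sec_iff.1 hG) hp
  inj := by
    intro d G hG h0 i
    have h1 := h.inj d G (Pool.Agent.W615.sec_iff.1 hG) (funext h0)
    rw [h1]
    rfl

theorem simp_of_simple {n : ℕ} {E : Bundle2 n} (hE : IsSimple E) :
    Pool.Agent.L5helper21.RG.Simp E := by
  rintro T rfl O
  obtain ⟨c, hc⟩ := hE (fun _ => O.D)
    (fun d G hG => Pool.Agent.W615.sec_iff.1 (O.sec d G (Pool.Agent.W615.sec_iff.2 hG)))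
    (fun d G G' hG hG' =>
      O.add d G G' (Pool.Agent.W615.sec_iff.2 hG) (Pool.Agent.W615.sec_iff.2 hG')) (by
    intro d e p G hG hp
    have h1 := O.mul d e p G (Pool.Agent.W615.sec_iff.2 hG) hp
    have h2 : lsub (LinearMap.id : (Fin (n + 1) → ℂ) →ₗ[ℂ] (Fin (n + 1) → ℂ)) p = p := by
      apply MvPolynomial.funext
      intro x
      rw [eval_lsub]
      rfl
    rw [h2] at h1
    exact h1)
  exact ⟨c, fun d s hs => hc d s (Pool.Agent.W615.sec_iff.1 hs)⟩

section
open Pool.Agent.L5helper21.RG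
variable {n : ℕ} {ψ : AddChar (ZMod (n + 1)) ℂ}

theorem shift_eq : (shiftMat n).mulVecLin = hrep ψ ⟨1, 1, 0, 0⟩ := by
  apply LinearMap.ext
  intro (x : ZMod (n + 1) → ℂ)
  refine funext fun (i : ZMod (n + 1)) => ?_
  rw [hrep_pos rfl]
  show (shiftMat n).mulVec x i = ψ (0 + 0 * i) * x (i + 1)
  have h1 : (shiftMat n).mulVec x i = ∑ j : ZMod (n + 1), (if j = i + 1 then (1 : ℂ) else 0) * x j :=
    rfl
  rw [h1, zero_mul, add_zero, AddChar.map_zero_eq_one, one_mul]
  simp only [ite_mul, one_mul, zero_mul, Finset.sum_ite_eq', Finset.mem_univ, if_true]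

theorem inv_eq : (invMat n).mulVecLin = hrep ψ HG.P0 := by
  apply LinearMap.ext
  intro (x : ZMod (n + 1) → ℂ)
  refine funext fun (i : ZMod (n + 1)) => ?_
  rw [hrep_neg rfl]
  show (invMat n).mulVec x i = ψ (0 + 0 * i) * x (-i + 0)
  have h1 : (invMat n).mulVec x i = ∑ j : ZMod (n + 1), (if j = -i then (1 : ℂ) else 0) * x j :=
    rfl
  rw [h1, zero_mul, add_zero, add_zero, AddChar.map_zero_eq_one, one_mul]
  simp only [ite_mul, one_mul, zero_mul, Finset.sum_ite_eq', Finset.mem_univ, if_true]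

theorem clock_eq {ζ : ℂ} (h : ∀ i : ZMod (n + 1), ψ i = ζ ^ i.val) :
    (clockMat n ζ).mulVecLin = hrep ψ ⟨1, 0, 1, 0⟩ := by
  apply LinearMap.ext
  intro (x : ZMod (n + 1) → ℂ)
  refine funext fun (i : ZMod (n + 1)) => ?_
  rw [hrep_pos rfl]
  show (clockMat n ζ).mulVec x i = ψ (0 + 1 * i) * x (i + 0)
  have h1 : (clockMat n ζ).mulVec x i =
      ∑ j : ZMod (n + 1), (if j = i then (ζ ^ i.val : ℂ) else 0) * x j := rfl
  rw [h1, one_mul, zero_add, add_zero, h]
  simp only [ite_mul, zero_mul, Finset.sum_ite_eq', Finset.mem_univ, if_true]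

end

theorem result {n : ℕ} (hpr : (n + 1).Prime) (hn : 4 ≤ n) {ζ : ℂ} (hζ : IsPrimitiveRoot ζ (n + 1))
    (E : Bundle2 n) (hE : ¬ E.Splits) (hS : IsSimple E)
    (hL : ∀ g ∈ symmetries n ζ, ∃ Φ, IsLift E g Φ) :
    ∃ (F : Bundle2 n) (Ψ : Vec E → Vec F) (b : ℤ), IsIso E F Ψ ∧
      (∀ k l, ∀ g ∈ symmetries n ζ, subst g (F.B k l) = F.B k l) ∧
      (∀ i, ((n + 1 : ℕ) : ℤ) ∣ F.β i - b) ∧
      ∀ (x y : Fin (n + 1) → ℂ) (u v : ℤ), LinearIndependent ℂ ![x, y] → E.SplitsOn x y u v →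
        ((n + 1 : ℕ) : ℤ) ∣ u + v - 2 * b := by
  have : Fact (n + 1).Prime := ⟨hpr⟩
  obtain ⟨W⟩ := H938TB.exists_wedge (n := n) (by omega) (Pool.Agent.W615.triv E)
  let ψ : AddChar (ZMod (n + 1)) ℂ := AddChar.zmodChar (n + 1) hζ.pow_eq_one
  have hψ1 : ∀ k : ZMod (n + 1), ψ k = ζ ^ k.val := fun k => AddChar.zmodChar_apply _ k
  have hψ : ∀ k, ψ k = 1 → k = 0 := by
    intro k hk
    rw [hψ1, hζ.pow_eq_one_iff_dvd] at hk
    have h1 := Nat.eq_zero_of_dvd_of_lt hk (ZMod.val_lt k)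
    exact (ZMod.val_eq_zero k).1 h1
  obtain ⟨Φ₁, h1⟩ := hL (shiftMat n) (Or.inl rfl)
  obtain ⟨Φ₂, h2⟩ := hL (clockMat n ζ) (Or.inr (Or.inl rfl))
  obtain ⟨Φ₃, h3⟩ := hL (invMat n) (Or.inr (Or.inr rfl))
  obtain ⟨F, Ψ, ⟨h4, h5, h6, h7, h8⟩, b, h9, h10⟩ := Pool.Agent.L5helper21.RG.heis_main hn hE
    (simp_of_simple hS) W hψ (by rw [← shift_eq]; exact ⟨gop h1⟩)
    (by rw [← clock_eq hψ1]; exact ⟨gop h2⟩) (by rw [← inv_eq]; exact ⟨gop h3⟩) (by
    intro Θ ha hb hc
    obtain ⟨c, hc'⟩ := hS Θ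
      (fun d G hG => Pool.Agent.W615.sec_iff.1 (ha d G (Pool.Agent.W615.sec_iff.2 hG)))
      (fun d G G' hG hG' =>
        hb d G G' (Pool.Agent.W615.sec_iff.2 hG) (Pool.Agent.W615.sec_iff.2 hG'))
      (fun d e p G hG hp => hc d e p G (Pool.Agent.W615.sec_iff.2 hG) hp)
    exact ⟨c, fun d G hG => hc' d G (Pool.Agent.W615.sec_iff.1 hG)⟩)
  refine ⟨F, Ψ, b, ⟨h5, h6, h7, h8⟩, fun k l g hg => ?_, h9, fun x y u v hxy hs => ?_⟩
  · rw [subst_eq]
    rcases hg with rfl | rfl | rfl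
    · rw [shift_eq (ψ := ψ)]
      exact h4 k l _
    · rw [clock_eq hψ1]
      exact h4 k l _
    · rw [inv_eq (ψ := ψ)]
      exact h4 k l _
  · rw [← Pool.Agent.W467.FX.kappa_of_line W hxy hs]
    exact h10

end Pool.Agent.Results.MP_745d3a_ag.HeisenbergSymmetry
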