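import Pool.Agent.L5helper21.DS.Main

/-!
# Rank two bundles invariant under homologies are pullbacks

Let `E` be a rank two bundle on `P^n`, `n ≥ 3`, which does not split, and let `ζ_i` be a
primitive root of unity of order `m_i ≥ 1`, for `i = 0, …, n`.  Suppose that `E` is invariant
under the `n + 1` homologies `x_i ↦ ζ_i x_i` (for `m_i = 1` this is no condition); if `E` is not
simple, we assume in addition that the lifts commute up to constants.  Then

* `E` is isomorphic to a bundle which is given by a matrix whose entries are polynomials in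
  `x_0^{m_0}, …, x_n^{m_n}`;
* if all the `m_i` are equal to `r`, then `E ≅ (φ^* F)(e)` for a rank two bundle `F` on `P^n`
  which does not split, and the morphism `φ (x_0, …, x_n) = (x_0^r, …, x_n^r)`.
-/

set_option autoImplicit false

namespace Pool.Agent.Results.MP_745d3a_ag.HomologyDescent

open MvPolynomial H960VB

/-- the vectors of polynomials -/
abbrev Vec {n : ℕ} (E : Bundle2 n) : Type := Fin E.a → MvPolynomial (Fin (n + 1)) ℂ

/-- the polynomial `x ↦ p (g x)` -/
noncomputable def subst {n : ℕ} (g : Matrix (Fin (n + 1)) (Fin (n + 1)) ℂ)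
    (p : MvPolynomial (Fin (n + 1)) ℂ) : MvPolynomial (Fin (n + 1)) ℂ :=
  aeval (fun s => ∑ t, C (g s t) * X t) p

/-- `Φ` is a lift to `E` of the automorphism `x ↦ g x` of `P^n`, that is, an isomorphism
`g^* E ≅ E` in terms of sections: it maps sections of `E(d)` to sections of `E(d)`, is additive
and injective, and satisfies `Φ (p G) = (p ∘ g) Φ G` for all homogeneous polynomials `p`. -/
structure IsLift {n : ℕ} (E : Bundle2 n) (g : Matrix (Fin (n + 1)) (Fin (n + 1)) ℂ)
    (Φ : Vec E → Vec E) : Prop where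
  sec : ∀ d G, E.IsSection d G → E.IsSection d (Φ G)
  add : ∀ d G G', E.IsSection d G → E.IsSection d G' → Φ (G + G') = Φ G + Φ G'
  semi : ∀ d e p G, E.IsSection d G → HomZ p e → Φ (p • G) = subst g p • Φ G
  inj : ∀ d G, E.IsSection d G → Φ G = 0 → G = 0

/-- `E` is simple: the endomorphisms of `E`, in terms of sections, are the multiplications by
constants -/
def IsSimple {n : ℕ} (E : Bundle2 n) : Prop :=
  ∀ Ψ : ℤ → Vec E → Vec E, (∀ d G, E.IsSection d G → E.IsSection d (Ψ d G)) →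
    (∀ d G G', E.IsSection d G → E.IsSection d G' → Ψ d (G + G') = Ψ d G + Ψ d G') →
    (∀ d e (p : MvPolynomial (Fin (n + 1)) ℂ) G, E.IsSection d G → HomZ p e →
      Ψ (d + e) (p • G) = p • Ψ d G) →
    ∃ c : ℂ, ∀ d G, E.IsSection d G → Ψ d G = c • G

/-- the matrix of the homology which multiplies the coordinate `x_i` by `z` and fixes the other
coordinates -/
def homology {n : ℕ} (i : Fin (n + 1)) (z : ℂ) : Matrix (Fin (n + 1)) (Fin (n + 1)) ℂ :=
  Matrix.diagonal fun s => if s = i then z else 1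

/-- the polynomial `q (x_0^{m_0}, …, x_n^{m_n})` -/
noncomputable def powers {n : ℕ} (m : Fin (n + 1) → ℕ) (q : MvPolynomial (Fin (n + 1)) ℂ) :
    MvPolynomial (Fin (n + 1)) ℂ := aeval (fun s => X s ^ m s) q

theorem pullback_hom {n : ℕ} (F : Bundle2 n) (r : ℕ) (k : Fin F.c) (i : Fin F.a) :
    HomZ (F.B.map (powers fun _ => r) k i) (r * F.γ k - r * F.β i) :=
  (Pool.Agent.L5helper21.DS.powPull F r).hom k i

theorem pullback_rank {n : ℕ} (F : Bundle2 n) (r : ℕ) (x : Fin (n + 1) → ℂ) (hx : x ≠ 0) :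
    Module.finrank ℂ (LinearMap.ker (Matrix.mulVecLin (evm (F.B.map (powers fun _ => r)) x))) =
      2 :=
  (Pool.Agent.L5helper21.DS.powPull F r).rank_two x hx

/-- the pullback of the bundle `F` under the morphism `(x_0, …, x_n) ↦ (x_0^r, …, x_n^r)` of
`P^n`: the matrix of `F` is composed with this morphism, and all degrees are multiplied by
`r` -/
noncomputable def pullback {n : ℕ} (F : Bundle2 n) (r : ℕ) : Bundle2 n where
  a := F.a
  c := F.c
  β := fun i => r * F.β i
  γ := fun k => r * F.γ k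
  B := F.B.map (powers fun _ => r)
  hom := pullback_hom F r
  rank_two := pullback_rank F r

/-- `Ψ` is an isomorphism `E ≅ F(e)` in terms of sections: it is additive, linear over the
polynomial ring, and maps the sections of `E(d)` bijectively to the sections of `F(d + e)`, for
all `d` -/
structure IsIso {n : ℕ} (E F : Bundle2 n) (e : ℤ) (Ψ : Vec E → Vec F) : Prop where
  sec : ∀ d G, E.IsSection d G → F.IsSection (d + e) (Ψ G)
  add : ∀ d G G', E.IsSection d G → E.IsSection d G' → Ψ (G + G') = Ψ G + Ψ G'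
  mul : ∀ d (p : MvPolynomial (Fin (n + 1)) ℂ) G, E.IsSection d G → Ψ (p • G) = p • Ψ G
  bij : ∀ d H, F.IsSection (d + e) H → ∃! G, E.IsSection d G ∧ Ψ G = H

theorem subst_eq {n : ℕ} (g : Matrix (Fin (n + 1)) (Fin (n + 1)) ℂ)
    (p : MvPolynomial (Fin (n + 1)) ℂ) : subst g p = lsub g.mulVecLin p := by
  unfold subst lsub
  congr 2
  funext s
  refine Finset.sum_congr rfl fun t _ => ?_
  congr 2
  rw [Matrix.mulVecLin_apply, Matrix.mulVec_single_one]
  rfl

/-- the lift as an operator in the sense of the library -/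
def gop {n : ℕ} {E : Bundle2 n} {g : Matrix (Fin (n + 1)) (Fin (n + 1)) ℂ}
    {Φ : Vec E → Vec E} (h : IsLift E g Φ) : Pool.Agent.W467.FO.GOp E g.mulVecLin where
  D := Φ
  sec := fun d G hG => Pool.Agent.W615.sec_iff.2 (h.sec d G (Pool.Agent.W615.sec_iff.1 hG))
  add := fun d G G' hG hG' =>
    h.add d G G' (Pool.Agent.W615.sec_iff.1 hG) (Pool.Agent.W615.sec_iff.1 hG')
  mul := by
    intro d e p G hG hp
    rw [← subst_eq]
    exact h.semi d e p G (Pool.Agent.W615.sec_iff.1 hG) hp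
  inj := by
    intro d G hG h0 i
    have h1 := h.inj d G (Pool.Agent.W615.sec_iff.1 hG) (funext h0)
    rw [h1]
    rfl

theorem lin_injective {n : ℕ} {E : Bundle2 n} {g : Matrix (Fin (n + 1)) (Fin (n + 1)) ℂ}
    {Φ : Vec E → Vec E} (h : IsLift E g Φ) (d : ℤ) : Function.Injective ((gop h).lin d) := by
  rw [← LinearMap.ker_eq_bot, LinearMap.ker_eq_bot']
  intro r hr
  apply Subtype.ext
  exact h.inj d r.1 (Pool.Agent.W615.sec_iff.1 r.2) (congrArg Subtype.val hr)

theorem lift_surj {n : ℕ} {E : Bundle2 n} {g : Matrix (Fin (n + 1)) (Fin (n + 1)) ℂ}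
    {Φ : Vec E → Vec E} (h : IsLift E g Φ) {d : ℤ} {s : Vec E} (hs : E.IsSection d s) :
    ∃ t, E.IsSection d t ∧ Φ t = s := by
  obtain ⟨t, ht⟩ := LinearMap.surjective_of_injective (lin_injective h d)
    ⟨s, Pool.Agent.W615.sec_iff.2 hs⟩
  exact ⟨t.1, Pool.Agent.W615.sec_iff.1 t.2, congrArg Subtype.val ht⟩

theorem lift_inj {n : ℕ} {E : Bundle2 n} {g : Matrix (Fin (n + 1)) (Fin (n + 1)) ℂ}
    {Φ : Vec E → Vec E} (h : IsLift E g Φ) {d : ℤ} {s t : Vec E} (hs : E.IsSection d s)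
    (ht : E.IsSection d t) (hst : Φ s = Φ t) : s = t := by
  have h1 : (gop h).lin d ⟨s, Pool.Agent.W615.sec_iff.2 hs⟩ =
      (gop h).lin d ⟨t, Pool.Agent.W615.sec_iff.2 ht⟩ := Subtype.ext hst
  exact congrArg Subtype.val (lin_injective h d h1)

theorem isSection_add {n : ℕ} {E : Bundle2 n} {d : ℤ} {s t : Vec E} (hs : E.IsSection d s)
    (ht : E.IsSection d t) : E.IsSection d (s + t) :=
  Pool.Agent.W615.sec_iff.1 (Pool.Agent.W615.sec_add (Pool.Agent.W615.sec_iff.2 hs)
    (Pool.Agent.W615.sec_iff.2 ht))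

theorem isSection_mul {n : ℕ} {E : Bundle2 n} {d e : ℤ} {p : MvPolynomial (Fin (n + 1)) ℂ}
    {s : Vec E} (hp : HomZ p e) (hs : E.IsSection d s) : E.IsSection (d + e) (p • s) := by
  have h := Pool.Agent.W615.sec_mul hp (Pool.Agent.W615.sec_iff.2 hs)
  rw [add_comm e d] at h
  exact Pool.Agent.W615.sec_iff.1 h

theorem subst_subst {n : ℕ} (g h : Matrix (Fin (n + 1)) (Fin (n + 1)) ℂ)
    (p : MvPolynomial (Fin (n + 1)) ℂ) : subst g (subst h p) = subst (h * g) p := by
  rw [subst_eq, subst_eq, subst_eq, Pool.Agent.W615.lsub_comp, Matrix.mulVecLin_mul]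

theorem subst_one {n : ℕ} (p : MvPolynomial (Fin (n + 1)) ℂ) : subst 1 p = p := by
  rw [subst_eq, Matrix.mulVecLin_one]
  apply MvPolynomial.funext
  intro x
  rw [eval_lsub]
  rfl

theorem homZ_subst {n : ℕ} (g : Matrix (Fin (n + 1)) (Fin (n + 1)) ℂ)
    {p : MvPolynomial (Fin (n + 1)) ℂ} {e : ℤ} (hp : HomZ p e) : HomZ (subst g p) e := by
  rw [subst_eq]
  exact homZ_lsub _ hp

/-- for a simple bundle the lifts of commuting matrices commute up to a constant -/
theorem simple_comm {n : ℕ} {E : Bundle2 n} (hE : IsSimple E)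
    {g g' k : Matrix (Fin (n + 1)) (Fin (n + 1)) ℂ} {Φ Φ' : Vec E → Vec E}
    (h : IsLift E g Φ) (h' : IsLift E g' Φ') (hk : k * (g * g') = 1) (hgg : g * g' = g' * g) :
    ∃ c : ℂ, ∀ d s, E.IsSection d s → Φ (Φ' s) = c • Φ' (Φ s) := by
  classical
  let Ψ : ℤ → Vec E → Vec E := fun d s =>
    if H : ∃ t, E.IsSection d t ∧ Φ' (Φ t) = s then Φ (Φ' H.choose) else 0
  have key : ∀ d t, E.IsSection d t → Ψ d (Φ' (Φ t)) = Φ (Φ' t) := by
    intro d t ht
    have H : ∃ t', E.IsSection d t' ∧ Φ' (Φ t') = Φ' (Φ t) := ⟨t, ht, rfl⟩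
    have h1 : H.choose = t := lift_inj h H.choose_spec.1 ht
      (lift_inj h' (h.sec d _ H.choose_spec.1) (h.sec d _ ht) H.choose_spec.2)
    show (if H : ∃ t', E.IsSection d t' ∧ Φ' (Φ t') = Φ' (Φ t) then
      Φ (Φ' H.choose) else 0) = _
    rw [dif_pos H, h1]
  have hsurj : ∀ d s, E.IsSection d s → ∃ t, E.IsSection d t ∧ Φ' (Φ t) = s := by
    intro d s hs
    obtain ⟨r, hr, rfl⟩ := lift_surj h' hs
    obtain ⟨t, ht, rfl⟩ := lift_surj h hr
    exact ⟨t, ht, rfl⟩
  have hinv : ∀ p : MvPolynomial (Fin (n + 1)) ℂ, subst g' (subst g (subst k p)) = p := by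
    intro p
    rw [subst_subst, subst_subst, hk, subst_one]
  have hinv' : ∀ p : MvPolynomial (Fin (n + 1)) ℂ, subst g (subst g' (subst k p)) = p := by
    intro p
    rw [subst_subst, subst_subst, ← hgg, hk, subst_one]
  obtain ⟨c, hc⟩ := hE Ψ (by
    intro d s hs
    obtain ⟨t, ht, rfl⟩ := hsurj d s hs
    rw [key d t ht]
    exact h.sec d _ (h'.sec d t ht)) (by
    intro d s s' hs hs'
    obtain ⟨t, ht, rfl⟩ := hsurj d s hs
    obtain ⟨t', ht', rfl⟩ := hsurj d s' hs'
    rw [key d t ht, key d t' ht',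
      ← h'.add d _ _ (h.sec d t ht) (h.sec d t' ht'), ← h.add d t t' ht ht',
      key d _ (isSection_add ht ht'), h'.add d t t' ht ht',
      h.add d _ _ (h'.sec d t ht) (h'.sec d t' ht')]) (by
    intro d e p s hs hp
    obtain ⟨t, ht, rfl⟩ := hsurj d s hs
    have hp' : HomZ (subst k p) e := homZ_subst _ hp
    have h1 : p • Φ' (Φ t) = Φ' (Φ (subst k p • t)) := by
      rw [h.semi d e _ t ht hp', h'.semi d e _ _ (h.sec d t ht) (homZ_subst _ hp'), hinv]
    rw [h1, key (d + e) _ (isSection_mul hp' ht), key d t ht,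
      h'.semi d e _ t ht hp', h.semi d e _ _ (h'.sec d t ht) (homZ_subst _ hp'), hinv'])
  refine ⟨c, fun d s hs => ?_⟩
  rw [← key d s hs]
  exact hc d _ (h'.sec d _ (h.sec d s hs))

theorem homology_comm {n : ℕ} (i j : Fin (n + 1)) (z w : ℂ) :
    (homology i z * homology j w : Matrix (Fin (n + 1)) (Fin (n + 1)) ℂ) =
      homology j w * homology i z := by
  unfold homology
  rw [Matrix.diagonal_mul_diagonal, Matrix.diagonal_mul_diagonal]
  congr 1
  funext s
  ring

theorem homology_inv {n : ℕ} (i j : Fin (n + 1)) {z w : ℂ} (hz : z ≠ 0) (hw : w ≠ 0) :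
    ((homology i z⁻¹ * homology j w⁻¹) * (homology i z * homology j w) :
      Matrix (Fin (n + 1)) (Fin (n + 1)) ℂ) = 1 := by
  unfold homology
  rw [Matrix.diagonal_mul_diagonal, Matrix.diagonal_mul_diagonal, Matrix.diagonal_mul_diagonal,
    ← Matrix.diagonal_one]
  congr 1
  funext s
  by_cases h1 : s = i
  · by_cases h2 : s = j
    · rw [if_pos h1, if_pos h2, if_pos h1, if_pos h2]
      field_simp
    · rw [if_pos h1, if_neg h2, if_pos h1, if_neg h2]
      field_simp
  · by_cases h2 : s = j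
    · rw [if_neg h1, if_pos h2, if_neg h1, if_pos h2]
      field_simp
    · rw [if_neg h1, if_neg h2, if_neg h1, if_neg h2]
      norm_num

theorem result {n : ℕ} (hn : 3 ≤ n) (E : Bundle2 n) (hE : ¬ E.Splits)
    -- the orders and the roots of unity
    (m : Fin (n + 1) → ℕ) (hm : ∀ i, 1 ≤ m i) (ζ : Fin (n + 1) → ℂ)
    (hζ : ∀ i, IsPrimitiveRoot (ζ i) (m i))
    -- the lifts of the homologies
    (Φ : Fin (n + 1) → Vec E → Vec E) (hΦ : ∀ i, IsLift E (homology i (ζ i)) (Φ i))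
    (hc : IsSimple E ∨ ∀ i j, ∃ c : ℂ, ∀ d s, E.IsSection d s → Φ i (Φ j s) = c • Φ j (Φ i s)) :
    (∃ (F : Bundle2 n) (Ψ : Vec E → Vec F), (∀ k l, ∃ q, F.B k l = powers m q) ∧
      IsIso E F 0 Ψ) ∧
    ∀ r, (∀ i, m i = r) → ∃ (F : Bundle2 n) (e : ℤ) (Ψ : Vec E → Vec (pullback F r)),
      ¬ F.Splits ∧ IsIso E (pullback F r) e Ψ := by
  have hz : ∀ i, ζ i ≠ 0 := fun i => (hζ i).ne_zero (by have := hm i; omega)
  have hc' : ∀ i j, ∃ c : ℂ, ∀ d s, E.IsSection d s → Φ i (Φ j s) = c • Φ j (Φ i s) := by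
    rcases hc with h | h
    · intro i j
      exact simple_comm h (hΦ i) (hΦ j) (homology_inv i j (hz i) (hz j))
        (homology_comm i j _ _)
    · exact h
  have hc'' : ∀ i j : Fin (n + 1), i ≠ j → ∃ c : ℂ, ∀ d,
      (gop (hΦ i)).lin d * (gop (hΦ j)).lin d =
        c • ((gop (hΦ j)).lin d * (gop (hΦ i)).lin d) := by
    intro i j _
    obtain ⟨c, hc⟩ := hc' i j
    refine ⟨c, fun d => ?_⟩
    apply LinearMap.ext
    intro s
    apply Subtype.ext
    exact hc d s.1 (Pool.Agent.W615.sec_iff.1 s.2)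
  constructor
  · obtain ⟨F, Ψ, h0, h1, h2, h3, h4⟩ := Pool.Agent.L5helper21.DS.general hn E hE hm hζ
      (fun i => gop (hΦ i)) hc''
    exact ⟨F, Ψ, h0, fun d G hG => by rw [add_zero]; exact h1 d G hG, h2, h3,
      fun d H hH => h4 d H (by rwa [add_zero] at hH)⟩
  · intro r hr
    have hζ' : ∀ i, IsPrimitiveRoot (ζ i) r := fun i => hr i ▸ hζ i
    obtain ⟨F, e, Ψ, h0, h1, h2, h3, h4⟩ := Pool.Agent.L5helper21.DS.main hn E hE
      (by rw [← hr 0]; exact hm 0) hζ' (fun i => gop (hΦ i)) hc''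
    exact ⟨F, e, Ψ, h0, h1, h2, h3, h4⟩

end Pool.Agent.Results.MP_745d3a_ag.HomologyDescent
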