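import Pool.Agent.L5helper21.RG.Mono

/-!
# Rank two bundles invariant under reflections descend to the quotient

Let `E` be a rank two bundle on `P^n`, `n ≥ 3`, which does not split.  Let `W ⊂ GL_{n+1}(ℂ)` be a
finite group which is generated by (complex) reflections.

* If `E` is simple and `g^* E ≅ E` for the reflections `g` of a generating set of `W`, then `E`
  is isomorphic to a bundle which is given by a matrix of `W`-invariant forms.
* The same holds for all `E`, simple or not, on which `W` acts.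
* In particular, let `E` be simple and isomorphic to its pullbacks under the transpositions of
  adjacent coordinates and under `x_0 ↦ ζ x_0`, where `ζ` is a primitive `m`-th root of unity
  (no condition if `m = 1`).  Then `E` is isomorphic to a bundle which is given by a matrix of
  polynomials in the elementary symmetric polynomials of `x_0^m, …, x_n^m`.

So `E` is the pullback of a bundle on the weighted projective stack `P^n / W`.
-/

set_option autoImplicit false

namespace Pool.Agent.Results.MP_745d3a_ag.ReflectionGroupDescent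

open MvPolynomial H960VB

/-- the vectors of polynomials -/
abbrev Vec {n : ℕ} (E : Bundle2 n) : Type := Fin E.a → MvPolynomial (Fin (n + 1)) ℂ

/-- the polynomial `x ↦ p (g x)` -/
noncomputable def subst {n : ℕ} (g : Matrix (Fin (n + 1)) (Fin (n + 1)) ℂ)
    (p : MvPolynomial (Fin (n + 1)) ℂ) : MvPolynomial (Fin (n + 1)) ℂ :=
  aeval (fun s => ∑ t, C (g s t) * X t) p

/-- `Φ` is a lift to `E` of the automorphism `x ↦ g x` of `P^n`, that is, an isomorphism
`g^* E ≅ E` in terms of sections: it maps sections of `E(d)` to sections of `E(d)`, is additive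
and injective, and satisfies `Φ (p G) = (p ∘ g) Φ G` for all homogeneous polynomials `p`. -/
structure IsLift {n : ℕ} (E : Bundle2 n) (g : Matrix (Fin (n + 1)) (Fin (n + 1)) ℂ)
    (Φ : Vec E → Vec E) : Prop where
  sec : ∀ d G, E.IsSection d G → E.IsSection d (Φ G)
  add : ∀ d G G', E.IsSection d G → E.IsSection d G' → Φ (G + G') = Φ G + Φ G'
  semi : ∀ d e p G, E.IsSection d G → HomZ p e → Φ (p • G) = subst g p • Φ G
  inj : ∀ d G, E.IsSection d G → Φ G = 0 → G = 0

/-- `E` is simple: the endomorphisms of `E`, in terms of sections, are the multiplications by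
constants -/
def IsSimple {n : ℕ} (E : Bundle2 n) : Prop :=
  ∀ Ψ : ℤ → Vec E → Vec E, (∀ d G, E.IsSection d G → E.IsSection d (Ψ d G)) →
    (∀ d G G', E.IsSection d G → E.IsSection d G' → Ψ d (G + G') = Ψ d G + Ψ d G') →
    (∀ d e (p : MvPolynomial (Fin (n + 1)) ℂ) G, E.IsSection d G → HomZ p e →
      Ψ (d + e) (p • G) = p • Ψ d G) →
    ∃ c : ℂ, ∀ d G, E.IsSection d G → Ψ d G = c • G

/-- `Ψ` is an isomorphism `E ≅ F(e)` in terms of sections: it is additive, linear over the
polynomial ring, and maps the sections of `E(d)` bijectively to the sections of `F(d + e)`, for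
all `d` -/
structure IsIso {n : ℕ} (E F : Bundle2 n) (e : ℤ) (Ψ : Vec E → Vec F) : Prop where
  sec : ∀ d G, E.IsSection d G → F.IsSection (d + e) (Ψ G)
  add : ∀ d G G', E.IsSection d G → E.IsSection d G' → Ψ (G + G') = Ψ G + Ψ G'
  mul : ∀ d (p : MvPolynomial (Fin (n + 1)) ℂ) G, E.IsSection d G → Ψ (p • G) = p • Ψ G
  bij : ∀ d H, F.IsSection (d + e) H → ∃! G, E.IsSection d G ∧ Ψ G = H

/-- the matrix of the homology which multiplies the coordinate `x_0` by `z` and fixes the other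
coordinates -/
def homology {n : ℕ} (z : ℂ) : Matrix (Fin (n + 1)) (Fin (n + 1)) ℂ :=
  Matrix.diagonal fun s => if s = 0 then z else 1

/-- the elementary symmetric polynomial of degree `i + 1` of `x_0^m, …, x_n^m` -/
noncomputable def esymmPow {n : ℕ} (m : ℕ) (i : Fin (n + 1)) : MvPolynomial (Fin (n + 1)) ℂ :=
  aeval (fun s => X s ^ m) (esymm (Fin (n + 1)) ℂ (i + 1))

theorem subst_eq {n : ℕ} (g : Matrix (Fin (n + 1)) (Fin (n + 1)) ℂ)
    (p : MvPolynomial (Fin (n + 1)) ℂ) : subst g p = lsub g.mulVecLin p := by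
  unfold subst lsub
  congr 2
  funext s
  refine Finset.sum_congr rfl fun t _ => ?_
  congr 2
  rw [Matrix.mulVecLin_apply, Matrix.mulVec_single_one]
  rfl

/-- the lift as an operator in the sense of the library -/
def gop {n : ℕ} {E : Bundle2 n} {g : Matrix (Fin (n + 1)) (Fin (n + 1)) ℂ}
    {Φ : Vec E → Vec E} (h : IsLift E g Φ) : Pool.Agent.W467.FO.GOp E g.mulVecLin where
  D := Φ
  sec := fun d G hG => Pool.Agent.W615.sec_iff.2 (h.sec d G (Pool.Agent.W615.sec_iff.1 hG))
  add := fun d G G' hG hG' =>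
    h.add d G G' (Pool.Agent.W615.sec_iff.1 hG) (Pool.Agent.W615.sec_iff.1 hG')
  mul := by
    intro d e p G hG hp
    rw [← subst_eq]
    exact h.semi d e p G (Pool.Agent.W615.sec_iff.1 hG) hp
  inj := by
    intro d G hG h0 i
    have h1 := h.inj d G (Pool.Agent.W615.sec_iff.1 hG) (funext h0)
    rw [h1]
    rfl

theorem simp_of_simple {n : ℕ} {E : Bundle2 n} (hE : IsSimple E) :
    Pool.Agent.L5helper21.RG.Simp E := by
  rintro T rfl O
  obtain ⟨c, hc⟩ := hE (fun _ => O.D)
    (fun d G hG => Pool.Agent.W615.sec_iff.1 (O.sec d G (Pool.Agent.W615.sec_iff.2 hG)))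
    (fun d G G' hG hG' =>
      O.add d G G' (Pool.Agent.W615.sec_iff.2 hG) (Pool.Agent.W615.sec_iff.2 hG')) (by
    intro d e p G hG hp
    have h1 := O.mul d e p G (Pool.Agent.W615.sec_iff.2 hG) hp
    have h2 : lsub (LinearMap.id : (Fin (n + 1) → ℂ) →ₗ[ℂ] (Fin (n + 1) → ℂ)) p = p := by
      apply MvPolynomial.funext
      intro x
      rw [eval_lsub]
      rfl
    rw [h2] at h1
    exact h1)
  exact ⟨c, fun d s hs => hc d s (Pool.Agent.W615.sec_iff.1 hs)⟩

/-- the linear action of a subgroup -/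
noncomputable def act {n : ℕ} (Γ : Subgroup (GL (Fin (n + 1)) ℂ)) :
    Γ →* Module.End ℂ (Fin (n + 1) → ℂ) where
  toFun := fun g => (g.1 : Matrix (Fin (n + 1)) (Fin (n + 1)) ℂ).mulVecLin
  map_one' := Matrix.mulVecLin_one
  map_mul' := fun g h => Matrix.mulVecLin_mul _ _

/-- simple bundles -/
theorem simple_case {n : ℕ} (hn : 3 ≤ n) (E : Bundle2 n) (hE : ¬ E.Splits) (hS : IsSimple E)
    (S : Set (GL (Fin (n + 1)) ℂ)) (hfin : Finite (Subgroup.closure S))
    (hr : ∀ g ∈ S, ((g : Matrix (Fin (n + 1)) (Fin (n + 1)) ℂ) - 1).rank = 1)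
    (hl : ∀ g ∈ S, ∃ Φ, IsLift E (g : Matrix (Fin (n + 1)) (Fin (n + 1)) ℂ) Φ) :
    ∃ (F : Bundle2 n) (Ψ : Vec E → Vec F),
      (∀ k l, ∀ g ∈ S, subst (g : Matrix (Fin (n + 1)) (Fin (n + 1)) ℂ) (F.B k l) = F.B k l) ∧
      IsIso E F 0 Ψ := by
  obtain ⟨F, Ψ, h0, h1, h2, h3, h4⟩ := Pool.Agent.L5helper21.RG.general_simple
    (act (Subgroup.closure S)) hn hE (simp_of_simple hS)
    (S := ((↑) : Subgroup.closure S → GL (Fin (n + 1)) ℂ) ⁻¹' S) (by
      intro g hg
      exact (Pool.Agent.L5helper21.RG.rank_one_iff _).1 (hr g.1 hg)) (by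
      intro g hg
      obtain ⟨Φ, hΦ⟩ := hl g.1 hg
      exact ⟨gop hΦ⟩)
  refine ⟨F, Ψ, fun k l g hg => ?_, ⟨fun d G hG => by rw [add_zero]; exact h1 d G hG, h2, h3,
    fun d H hH => h4 d H (by rwa [add_zero] at hH)⟩⟩
  rw [subst_eq]
  exact h0 k l ⟨g, Subgroup.subset_closure hg⟩ hg

/-- equivariant bundles -/
theorem equivariant_case {n : ℕ} (hn : 3 ≤ n) (E : Bundle2 n) (hE : ¬ E.Splits)
    (Γ : Subgroup (GL (Fin (n + 1)) ℂ)) (hfin : Finite Γ)
    (hr : Subgroup.closure {g : Γ |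
      ((g.1 : Matrix (Fin (n + 1)) (Fin (n + 1)) ℂ) - 1).rank = 1} = ⊤)
    (Φ : Γ → Vec E → Vec E)
    (hΦ : ∀ g : Γ, IsLift E (g.1 : Matrix (Fin (n + 1)) (Fin (n + 1)) ℂ) (Φ g))
    (hmul : ∀ (g h : Γ) d s, E.IsSection d s → Φ (g * h) s = Φ h (Φ g s)) :
    ∃ (F : Bundle2 n) (Ψ : Vec E → Vec F),
      (∀ k l, ∀ g ∈ Γ, subst (g : Matrix (Fin (n + 1)) (Fin (n + 1)) ℂ) (F.B k l) = F.B k l) ∧
      IsIso E F 0 Ψ := by
  have : Fintype Γ := Fintype.ofFinite Γ
  let A : Pool.Agent.L5helper21.RG.Act E (act Γ) :=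
    ⟨fun g => gop (hΦ g), fun g h d s hs => hmul g h d s (Pool.Agent.W615.sec_iff.1 hs)⟩
  obtain ⟨F, Ψ, h0, h1, h2, h3, h4⟩ := Pool.Agent.L5helper21.RG.general_act (T := act Γ) hn hE A
    (by
      intro g hg
      apply Subtype.ext
      apply Units.ext
      have h1 : (g.1 : Matrix (Fin (n + 1)) (Fin (n + 1)) ℂ).mulVecLin =
        (1 : Matrix (Fin (n + 1)) (Fin (n + 1)) ℂ).mulVecLin := by
        rw [Matrix.mulVecLin_one]
        exact hg
      ext s t
      have h2 := congrFun (LinearMap.congr_fun h1 (Pi.single t 1)) s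
      simp only [Matrix.mulVecLin_apply, Matrix.mulVec_single_one] at h2
      exact h2) hr (by
      intro g hg
      exact (Pool.Agent.L5helper21.RG.rank_one_iff _).1 hg)
  refine ⟨F, Ψ, fun k l g hg => ?_, ⟨fun d G hG => by rw [add_zero]; exact h1 d G hG, h2, h3,
    fun d H hH => h4 d H (by rwa [add_zero] at hH)⟩⟩
  -- the invariance under the reflections implies the invariance under the group
  have key : ∀ g : Γ, lsub (act Γ g) (F.B k l) = F.B k l := by
    intro g
    have hg : g ∈ Subgroup.closure {g : Γ |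
      ((g.1 : Matrix (Fin (n + 1)) (Fin (n + 1)) ℂ) - 1).rank = 1} := by rw [hr]; trivial
    have hcomp : ∀ g h : Γ, lsub (act Γ (g * h)) (F.B k l) =
        lsub (act Γ h) (lsub (act Γ g) (F.B k l)) := by
      intro g h
      apply MvPolynomial.funext
      intro x
      rw [eval_lsub, eval_lsub, eval_lsub, map_mul, Module.End.mul_apply]
    induction hg using Subgroup.closure_induction with
    | mem g hg => exact h0 k l g hg
    | one =>
      rw [map_one]
      apply MvPolynomial.funext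
      intro x
      rw [eval_lsub]
      rfl
    | mul g h _ _ ihg ihh => rw [hcomp, ihg, ihh]
    | inv g _ ih =>
      have h5 := hcomp g g⁻¹
      rw [ih, mul_inv_cancel, map_one] at h5
      rw [← h5]
      apply MvPolynomial.funext
      intro x
      rw [eval_lsub]
      rfl
  rw [subst_eq]
  exact key ⟨g, hg⟩

/-- the transposition as a unit -/
noncomputable def swapU {n : ℕ} (i : Fin n) : GL (Fin (n + 1)) ℂ :=
  ⟨(Equiv.swap i.castSucc i.succ).permMatrix ℂ, (Equiv.swap i.castSucc i.succ).permMatrix ℂ, by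
    apply Matrix.ext_of_mulVec_single
    intro t
    rw [← Matrix.mulVec_mulVec, Matrix.permMatrix_mulVec, Matrix.permMatrix_mulVec,
      Matrix.one_mulVec]
    funext s
    simp, by
    apply Matrix.ext_of_mulVec_single
    intro t
    rw [← Matrix.mulVec_mulVec, Matrix.permMatrix_mulVec, Matrix.permMatrix_mulVec,
      Matrix.one_mulVec]
    funext s
    simp⟩

/-- the homology as a unit -/
noncomputable def homU {n : ℕ} {z : ℂ} (hz : z ≠ 0) : GL (Fin (n + 1)) ℂ :=
  ⟨homology z, homology z⁻¹, by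
    unfold homology
    rw [Matrix.diagonal_mul_diagonal, ← Matrix.diagonal_one]
    congr 1
    funext s
    split_ifs
    · exact mul_inv_cancel₀ hz
    · exact mul_one 1, by
    unfold homology
    rw [Matrix.diagonal_mul_diagonal, ← Matrix.diagonal_one]
    congr 1
    funext s
    split_ifs
    · exact inv_mul_cancel₀ hz
    · exact mul_one 1⟩

/-- the monomial groups -/
theorem monomial_case {n : ℕ} (hn : 3 ≤ n) (E : Bundle2 n) (hE : ¬ E.Splits) (hS : IsSimple E)
    (m : ℕ) (hm : 1 ≤ m) (ζ : ℂ) (hζ : IsPrimitiveRoot ζ m)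
    (hsw : ∀ i : Fin n, ∃ Φ, IsLift E ((Equiv.swap i.castSucc i.succ).permMatrix ℂ) Φ)
    (hho : m = 1 ∨ ∃ Φ, IsLift E (homology ζ) Φ) :
    ∃ (F : Bundle2 n) (Ψ : Vec E → Vec F),
      (∀ k l, ∃ Q : MvPolynomial (Fin (n + 1)) ℂ, F.B k l = aeval (esymmPow m) Q) ∧
      IsIso E F 0 Ψ := by
  have hζ0 : ζ ≠ 0 := hζ.ne_zero (by omega)
  let S : Set (GL (Fin (n + 1)) ℂ) := {g | (∃ i : Fin n, g = swapU i) ∨ (m ≠ 1 ∧ g = homU hζ0)}
  have hζ1 : m ≠ 1 → ζ ≠ 1 := by
    rintro h rfl
    apply h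
    exact hζ.unique (IsPrimitiveRoot.one)
  let e : Fin (n + 1) × Fin m → Fin (n + 1) → ℂ := fun x => Pi.single x.1 (ζ ^ (x.2 : ℕ))
  have hfin : Finite (Subgroup.closure S) := by
    refine Pool.Agent.L5helper21.RG.finite_of_span e (fun i => ⟨(i, ⟨0, by omega⟩), ?_⟩) ?_
    · show (Pi.single i (ζ ^ 0) : Fin (n + 1) → ℂ) = Pi.single i 1
      rw [pow_zero]
    · rintro g hg _ ⟨⟨i, k⟩, rfl⟩
      rcases hg with ⟨j, rfl⟩ | ⟨-, rfl⟩
      · refine ⟨(Equiv.swap j.castSucc j.succ i, k), ?_⟩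
        show Pi.single _ (ζ ^ (k : ℕ)) = Matrix.mulVec ((Equiv.swap j.castSucc j.succ).permMatrix ℂ)
          (Pi.single i (ζ ^ (k : ℕ)))
        rw [Matrix.permMatrix_mulVec]
        funext s
        rw [Function.comp_apply, Pi.single_apply, Pi.single_apply]
        congr 1
        rw [eq_iff_iff]
        constructor
        · rintro rfl
          exact Equiv.swap_apply_self _ _ _
        · rintro rfl
          exact (Equiv.swap_apply_self _ _ _).symm
      · by_cases hi : i = 0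
        · refine ⟨(i, ⟨((k : ℕ) + 1) % m, Nat.mod_lt _ hm⟩), ?_⟩
          show Pi.single i (ζ ^ (((k : ℕ) + 1) % m)) = Matrix.mulVec (homology ζ)
            (Pi.single i (ζ ^ (k : ℕ)))
          unfold homology
          funext s
          rw [Matrix.mulVec_diagonal]
          by_cases hs : s = i
          · rw [hs, Pi.single_eq_same, Pi.single_eq_same, if_pos hi,
              ← pow_eq_pow_mod _ hζ.pow_eq_one, pow_succ']
          · rw [Pi.single_eq_of_ne hs, Pi.single_eq_of_ne hs, mul_zero]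
        · refine ⟨(i, k), ?_⟩
          show Pi.single i (ζ ^ (k : ℕ)) = Matrix.mulVec (homology ζ)
            (Pi.single i (ζ ^ (k : ℕ)))
          unfold homology
          funext s
          rw [Matrix.mulVec_diagonal]
          by_cases hs : s = i
          · rw [hs, Pi.single_eq_same, if_neg hi, one_mul]
          · rw [Pi.single_eq_of_ne hs, mul_zero]
  obtain ⟨F, Ψ, h1, h2⟩ := simple_case hn E hE hS S hfin (by
    rintro g (⟨i, rfl⟩ | ⟨h, rfl⟩)
    · exact Pool.Agent.L5helper21.RG.swap_rank (Fin.castSucc_lt_succ).ne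
    · exact Pool.Agent.L5helper21.RG.hg_rank 0 (hζ1 h)) (by
    rintro g (⟨i, rfl⟩ | ⟨h, rfl⟩)
    · exact hsw i
    · exact hho.resolve_left h)
  refine ⟨F, Ψ, fun k l => ?_, h2⟩
  exact Pool.Agent.L5helper21.RG.exists_esymm hm hζ (fun i => by
    have h3 := h1 k l (swapU i) (Or.inl ⟨i, rfl⟩)
    rw [subst_eq] at h3
    exact h3) (fun h => by
    have h3 := h1 k l (homU hζ0) (Or.inr ⟨h, rfl⟩)
    rw [subst_eq] at h3
    exact h3)

theorem result {n : ℕ} (hn : 3 ≤ n) (E : Bundle2 n) (hE : ¬ E.Splits) :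
    -- simple bundles which are invariant under reflections
    (IsSimple E → ∀ S : Set (GL (Fin (n + 1)) ℂ), Finite (Subgroup.closure S) →
      (∀ g ∈ S, ((g : Matrix (Fin (n + 1)) (Fin (n + 1)) ℂ) - 1).rank = 1) →
      (∀ g ∈ S, ∃ Φ, IsLift E (g : Matrix (Fin (n + 1)) (Fin (n + 1)) ℂ) Φ) →
      ∃ (F : Bundle2 n) (Ψ : Vec E → Vec F),
        (∀ k l, ∀ g ∈ S, subst (g : Matrix (Fin (n + 1)) (Fin (n + 1)) ℂ) (F.B k l) = F.B k l) ∧
        IsIso E F 0 Ψ) ∧
    -- bundles with an action of a reflection group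
    (∀ Γ : Subgroup (GL (Fin (n + 1)) ℂ), Finite Γ →
      Subgroup.closure {g : Γ |
        ((g.1 : Matrix (Fin (n + 1)) (Fin (n + 1)) ℂ) - 1).rank = 1} = ⊤ →
      ∀ Φ : Γ → Vec E → Vec E,
      (∀ g : Γ, IsLift E (g.1 : Matrix (Fin (n + 1)) (Fin (n + 1)) ℂ) (Φ g)) →
      (∀ (g h : Γ) d s, E.IsSection d s → Φ (g * h) s = Φ h (Φ g s)) →
      ∃ (F : Bundle2 n) (Ψ : Vec E → Vec F),
        (∀ k l, ∀ g ∈ Γ, subst (g : Matrix (Fin (n + 1)) (Fin (n + 1)) ℂ) (F.B k l) = F.B k l) ∧
        IsIso E F 0 Ψ) ∧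
    -- simple bundles which are invariant under the permutations of the coordinates
    (IsSimple E → ∀ m : ℕ, 1 ≤ m → ∀ ζ : ℂ, IsPrimitiveRoot ζ m →
      (∀ i : Fin n, ∃ Φ, IsLift E ((Equiv.swap i.castSucc i.succ).permMatrix ℂ) Φ) →
      (m = 1 ∨ ∃ Φ, IsLift E (homology ζ) Φ) →
      ∃ (F : Bundle2 n) (Ψ : Vec E → Vec F),
        (∀ k l, ∃ Q : MvPolynomial (Fin (n + 1)) ℂ, F.B k l = aeval (esymmPow m) Q) ∧
        IsIso E F 0 Ψ) :=
  ⟨fun h => simple_case hn E hE h, equivariant_case hn E hE, fun h => monomial_case hn E hE h⟩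

end Pool.Agent.Results.MP_745d3a_ag.ReflectionGroupDescent
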