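import Pool.Agent.L5helper21.RG.Alt

/-!
# Rank two bundles invariant under a finite group with large fixed spaces

Let `E` be a rank two bundle on `P^n`, `n ≥ 3`, which does not split, and let `G` be a finite
group of matrices which fixes a vector `p ≠ 0`, such that for every vector `v ≠ 0` the stabiliser
of `v` in `G` is generated by elements with a fixed space of dimension at least three.  If `E` is
simple and isomorphic to its pullbacks under a set of generators of `G`, or if `G` acts on `E`,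
then `E` is isomorphic to a bundle which is given by a matrix of `G`-invariant forms.

* The hypothesis on `G` holds for all finite groups `G` which fix a space of dimension three
  (a plane of `P^n`) pointwise.
* It holds for the alternating group of the coordinates if `n ≥ 4`.  So every simple bundle of
  rank two on `P^n`, `n ≥ 4`, which does not split and is isomorphic to its pullbacks under the
  even permutations of the coordinates is given by a matrix with entries `P + Q Δ`, where `P` and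
  `Q` are symmetric polynomials and `Δ` is the product of the differences of the coordinates.
-/

set_option autoImplicit false

namespace Pool.Agent.Results.MP_745d3a_ag.StabiliserDescent

open MvPolynomial H960VB

/-- the vectors of polynomials -/
abbrev Vec {n : ℕ} (E : Bundle2 n) : Type := Fin E.a → MvPolynomial (Fin (n + 1)) ℂ

/-- the polynomial `x ↦ p (g x)` -/
noncomputable def subst {n : ℕ} (g : Matrix (Fin (n + 1)) (Fin (n + 1)) ℂ)
    (p : MvPolynomial (Fin (n + 1)) ℂ) : MvPolynomial (Fin (n + 1)) ℂ :=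
  aeval (fun s => ∑ t, C (g s t) * X t) p

/-- `Φ` is a lift to `E` of the automorphism `x ↦ g x` of `P^n`, that is, an isomorphism
`g^* E ≅ E` in terms of sections: it maps sections of `E(d)` to sections of `E(d)`, is additive
and injective, and satisfies `Φ (p G) = (p ∘ g) Φ G` for all homogeneous polynomials `p`. -/
structure IsLift {n : ℕ} (E : Bundle2 n) (g : Matrix (Fin (n + 1)) (Fin (n + 1)) ℂ)
    (Φ : Vec E → Vec E) : Prop where
  sec : ∀ d G, E.IsSection d G → E.IsSection d (Φ G)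
  add : ∀ d G G', E.IsSection d G → E.IsSection d G' → Φ (G + G') = Φ G + Φ G'
  semi : ∀ d e p G, E.IsSection d G → HomZ p e → Φ (p • G) = subst g p • Φ G
  inj : ∀ d G, E.IsSection d G → Φ G = 0 → G = 0

/-- `E` is simple: the endomorphisms of `E`, in terms of sections, are the multiplications by
constants -/
def IsSimple {n : ℕ} (E : Bundle2 n) : Prop :=
  ∀ Ψ : ℤ → Vec E → Vec E, (∀ d G, E.IsSection d G → E.IsSection d (Ψ d G)) →
    (∀ d G G', E.IsSection d G → E.IsSection d G' → Ψ d (G + G') = Ψ d G + Ψ d G') →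
    (∀ d e (p : MvPolynomial (Fin (n + 1)) ℂ) G, E.IsSection d G → HomZ p e →
      Ψ (d + e) (p • G) = p • Ψ d G) →
    ∃ c : ℂ, ∀ d G, E.IsSection d G → Ψ d G = c • G

/-- `Ψ` is an isomorphism `E ≅ F` in terms of sections: it is additive, linear over the
polynomial ring, and maps the sections of `E(d)` bijectively to the sections of `F(d)`, for
all `d` -/
structure IsIso {n : ℕ} (E F : Bundle2 n) (Ψ : Vec E → Vec F) : Prop where
  sec : ∀ d G, E.IsSection d G → F.IsSection d (Ψ G)
  add : ∀ d G G', E.IsSection d G → E.IsSection d G' → Ψ (G + G') = Ψ G + Ψ G'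
  mul : ∀ d (p : MvPolynomial (Fin (n + 1)) ℂ) G, E.IsSection d G → Ψ (p • G) = p • Ψ G
  bij : ∀ d H, F.IsSection d H → ∃! G, E.IsSection d G ∧ Ψ G = H

/-- the matrices in `S` are symmetries of `E`: either `E` is simple and they all lift to `E`, or
the group which they generate acts on `E` -/
def Symmetries {n : ℕ} (E : Bundle2 n) (S : Set (GL (Fin (n + 1)) ℂ)) : Prop :=
  (IsSimple E ∧ ∀ g ∈ S, ∃ Φ, IsLift E (g : Matrix (Fin (n + 1)) (Fin (n + 1)) ℂ) Φ) ∨
  ∃ Φ : Subgroup.closure S → Vec E → Vec E,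
    (∀ g : Subgroup.closure S, IsLift E (g.1 : Matrix (Fin (n + 1)) (Fin (n + 1)) ℂ) (Φ g)) ∧
    ∀ (g h : Subgroup.closure S) d s, E.IsSection d s → Φ (g * h) s = Φ h (Φ g s)

/-- `E` is isomorphic to a bundle given by a matrix of forms which are invariant under `S` -/
def Descends {n : ℕ} (E : Bundle2 n) (S : Set (GL (Fin (n + 1)) ℂ)) : Prop :=
  ∃ (F : Bundle2 n) (Ψ : Vec E → Vec F), IsIso E F Ψ ∧
    ∀ k l, ∀ g ∈ S, subst (g : Matrix (Fin (n + 1)) (Fin (n + 1)) ℂ) (F.B k l) = F.B k l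

/-- the vectors which are fixed by all elements of `S` -/
def fixedSpace {n : ℕ} (S : Set (GL (Fin (n + 1)) ℂ)) : Submodule ℂ (Fin (n + 1) → ℂ) where
  carrier := {v | ∀ g ∈ S, (g : Matrix (Fin (n + 1)) (Fin (n + 1)) ℂ).mulVec v = v}
  add_mem' := fun hv hw g h1 => by rw [Matrix.mulVec_add, hv g h1, hw g h1]
  zero_mem' := fun g _ => Matrix.mulVec_zero _
  smul_mem' := fun c v hv g h1 => by rw [Matrix.mulVec_smul, hv g h1]

/-- the elements of the group generated by `S` which fix `v` and whose fixed space has dimension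
at least three -/
def largeAt {n : ℕ} (S : Set (GL (Fin (n + 1)) ℂ)) (v : Fin (n + 1) → ℂ) :
    Set (GL (Fin (n + 1)) ℂ) :=
  {h | h ∈ Subgroup.closure S ∧ (h : Matrix (Fin (n + 1)) (Fin (n + 1)) ℂ).mulVec v = v ∧
    3 ≤ Module.finrank ℂ (fixedSpace {h})}

/-- the elementary symmetric polynomial of degree `i + 1` -/
noncomputable def elemSym {n : ℕ} (i : Fin (n + 1)) : MvPolynomial (Fin (n + 1)) ℂ :=
  esymm (Fin (n + 1)) ℂ (i + 1)

/-- the product of the differences of the variables -/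
noncomputable def disc (n : ℕ) : MvPolynomial (Fin (n + 1)) ℂ :=
  ∏ i : Fin (n + 1), ∏ j ∈ Finset.Ioi i, (X j - X i)

theorem subst_eq {n : ℕ} (g : Matrix (Fin (n + 1)) (Fin (n + 1)) ℂ)
    (p : MvPolynomial (Fin (n + 1)) ℂ) : subst g p = lsub g.mulVecLin p := by
  unfold subst lsub
  congr 2
  funext s
  refine Finset.sum_congr rfl fun t _ => ?_
  congr 2
  rw [Matrix.mulVecLin_apply, Matrix.mulVec_single_one]
  rfl

/-- the lift as an operator in the sense of the library -/
def gop {n : ℕ} {E : Bundle2 n} {g : Matrix (Fin (n + 1)) (Fin (n + 1)) ℂ}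
    {Φ : Vec E → Vec E} (h : IsLift E g Φ) : Pool.Agent.W467.FO.GOp E g.mulVecLin where
  D := Φ
  sec := fun d G hG => Pool.Agent.W615.sec_iff.2 (h.sec d G (Pool.Agent.W615.sec_iff.1 hG))
  add := fun d G G' hG hG' =>
    h.add d G G' (Pool.Agent.W615.sec_iff.1 hG) (Pool.Agent.W615.sec_iff.1 hG')
  mul := by
    intro d e p G hG hp
    rw [← subst_eq]
    exact h.semi d e p G (Pool.Agent.W615.sec_iff.1 hG) hp
  inj := by
    intro d G hG h0 i
    have h1 := h.inj d G (Pool.Agent.W615.sec_iff.1 hG) (funext h0)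
    rw [h1]
    rfl

theorem simp_of_simple {n : ℕ} {E : Bundle2 n} (hE : IsSimple E) :
    Pool.Agent.L5helper21.RG.Simp E := by
  rintro T rfl O
  obtain ⟨c, hc⟩ := hE (fun _ => O.D)
    (fun d G hG => Pool.Agent.W615.sec_iff.1 (O.sec d G (Pool.Agent.W615.sec_iff.2 hG)))
    (fun d G G' hG hG' =>
      O.add d G G' (Pool.Agent.W615.sec_iff.2 hG) (Pool.Agent.W615.sec_iff.2 hG')) (by
    intro d e p G hG hp
    have h1 := O.mul d e p G (Pool.Agent.W615.sec_iff.2 hG) hp
    have h2 : lsub (LinearMap.id : (Fin (n + 1) → ℂ) →ₗ[ℂ] (Fin (n + 1) → ℂ)) p = p := by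
      apply MvPolynomial.funext
      intro x
      rw [eval_lsub]
      rfl
    rw [h2] at h1
    exact h1)
  exact ⟨c, fun d s hs => hc d s (Pool.Agent.W615.sec_iff.1 hs)⟩

/-- the linear action of a subgroup -/
noncomputable def act {n : ℕ} (Γ : Subgroup (GL (Fin (n + 1)) ℂ)) :
    Γ →* Module.End ℂ (Fin (n + 1) → ℂ) where
  toFun := fun g => (g.1 : Matrix (Fin (n + 1)) (Fin (n + 1)) ℂ).mulVecLin
  map_one' := Matrix.mulVecLin_one
  map_mul' := fun g h => Matrix.mulVecLin_mul _ _

theorem fix_closure {n : ℕ} {S : Set (GL (Fin (n + 1)) ℂ)} {v : Fin (n + 1) → ℂ}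
    (hv : v ∈ fixedSpace S) {g : GL (Fin (n + 1)) ℂ} (hg : g ∈ Subgroup.closure S) :
    (g : Matrix (Fin (n + 1)) (Fin (n + 1)) ℂ).mulVec v = v := by
  induction hg using Subgroup.closure_induction with
  | mem g hg => exact hv g hg
  | one => exact Matrix.one_mulVec v
  | mul g h _ _ ihg ihh =>
    rw [Units.val_mul, ← Matrix.mulVec_mulVec, ihh, ihg]
  | inv g _ ih =>
    have h1 : ((g⁻¹ : GL (Fin (n + 1)) ℂ) : Matrix (Fin (n + 1)) (Fin (n + 1)) ℂ).mulVec
        ((g : Matrix (Fin (n + 1)) (Fin (n + 1)) ℂ).mulVec v) = v := by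
      rw [Matrix.mulVec_mulVec, ← Units.val_mul, inv_mul_cancel]
      exact Matrix.one_mulVec v
    rwa [ih] at h1

theorem fixed_eq {n : ℕ} (h : GL (Fin (n + 1)) ℂ) : fixedSpace {h} = LinearMap.ker
    ((h : Matrix (Fin (n + 1)) (Fin (n + 1)) ℂ).mulVecLin - (1 : ℂ) • LinearMap.id) := by
  ext v
  rw [LinearMap.mem_ker, LinearMap.sub_apply, LinearMap.smul_apply, LinearMap.id_apply, one_smul,
    sub_eq_zero, Matrix.mulVecLin_apply]
  constructor
  · intro hv
    exact hv h rfl
  · rintro hv g rfl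
    exact hv

/-- the general case -/
theorem general_case {n : ℕ} (hn : 3 ≤ n) (E : Bundle2 n) (hE : ¬ E.Splits)
    (S : Set (GL (Fin (n + 1)) ℂ)) (hfin : Finite (Subgroup.closure S)) (hS : Symmetries E S)
    (p : Fin (n + 1) → ℂ) (hp : p ≠ 0) (hpS : p ∈ fixedSpace S)
    (hst : ∀ v : Fin (n + 1) → ℂ, v ≠ 0 → ∀ g ∈ Subgroup.closure S,
      (g : Matrix (Fin (n + 1)) (Fin (n + 1)) ℂ).mulVec v = v →
      g ∈ Subgroup.closure (largeAt S v)) : Descends E S := by
  have : Fintype (Subgroup.closure S) := Fintype.ofFinite _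
  have hst' : ∀ v : Fin (n + 1) → ℂ, v ≠ 0 → ∀ g : Subgroup.closure S,
      act (Subgroup.closure S) g v = v → g ∈ Subgroup.closure {h | act (Subgroup.closure S) h v = v ∧
        Pool.Agent.L5helper21.RG.Big (act (Subgroup.closure S)) h} := by
    intro v hv g hg
    have h1 := hst v hv g.1 g.2 hg
    have h2 : largeAt S v = (Subgroup.closure S).subtype ''
        {h | act (Subgroup.closure S) h v = v ∧
        Pool.Agent.L5helper21.RG.Big (act (Subgroup.closure S)) h} := by
      ext h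
      constructor
      · rintro ⟨h3, h4, h5⟩
        refine ⟨⟨h, h3⟩, ⟨h4, ?_⟩, rfl⟩
        rw [fixed_eq] at h5
        exact h5
      · rintro ⟨h, ⟨h4, h5⟩, rfl⟩
        refine ⟨h.2, h4, ?_⟩
        rw [fixed_eq]
        exact h5
    rw [h2, ← MonoidHom.map_closure] at h1
    obtain ⟨g', hg', hgg⟩ := h1
    have h3 : g' = g := Subtype.ext hgg
    rw [← h3]
    exact hg'
  have hfix : ∀ g, act (Subgroup.closure S) g p = p := fun g => fix_closure hpS g.2
  rcases hS with ⟨hsimp, hl⟩ | ⟨Φ, hΦ, hmul⟩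
  · obtain ⟨F, Ψ, h0, h1, h2, h3, h4⟩ := Pool.Agent.L5helper21.RG.stab_simple
      (T := act (Subgroup.closure S)) hn hE (simp_of_simple hsimp)
      (S := ((↑) : Subgroup.closure S → GL (Fin (n + 1)) ℂ) ⁻¹' S)
      Subgroup.closure_closure_coe_preimage (by
        intro g hg
        obtain ⟨Φ, hΦ⟩ := hl g.1 hg
        exact ⟨gop hΦ⟩) hp hfix hst'
    refine ⟨F, Ψ, ⟨h1, h2, h3, h4⟩, fun k l g hg => ?_⟩
    rw [subst_eq]
    exact h0 k l ⟨g, Subgroup.subset_closure hg⟩
  · let A : Pool.Agent.L5helper21.RG.Act E (act (Subgroup.closure S)) :=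
      ⟨fun g => gop (hΦ g), fun g h d s hs => hmul g h d s (Pool.Agent.W615.sec_iff.1 hs)⟩
    obtain ⟨F, Ψ, h0, h1, h2, h3, h4⟩ := Pool.Agent.L5helper21.RG.stab_act hn hE A hp hfix hst'
    refine ⟨F, Ψ, ⟨h1, h2, h3, h4⟩, fun k l g hg => ?_⟩
    rw [subst_eq]
    exact h0 k l ⟨g, Subgroup.subset_closure hg⟩

/-- groups which fix a plane pointwise -/
theorem plane_case {n : ℕ} (hn : 3 ≤ n) (E : Bundle2 n) (hE : ¬ E.Splits)
    (S : Set (GL (Fin (n + 1)) ℂ)) (hfin : Finite (Subgroup.closure S)) (hS : Symmetries E S)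
    (h3 : 3 ≤ Module.finrank ℂ (fixedSpace S)) : Descends E S := by
  obtain ⟨p, hpS, hp⟩ : ∃ p ∈ fixedSpace S, p ≠ 0 := by
    refine Submodule.exists_mem_ne_zero_of_ne_bot fun h => ?_
    rw [h, finrank_bot] at h3
    omega
  refine general_case hn E hE S hfin hS p hp hpS fun v _ g hg hgv => ?_
  refine Subgroup.subset_closure ⟨hg, hgv, h3.trans (Submodule.finrank_mono ?_)⟩
  rintro w hw g' rfl
  exact fix_closure hw hg

/-- the alternating group -/
theorem alternating_case {n : ℕ} (hn : 4 ≤ n) (E : Bundle2 n) (hE : ¬ E.Splits)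
    (hS : IsSimple E)
    (hL : ∀ σ : Equiv.Perm (Fin (n + 1)), σ.IsThreeCycle → ∃ Φ, IsLift E (σ.permMatrix ℂ) Φ) :
    ∃ (F : Bundle2 n) (Ψ : Vec E → Vec F), IsIso E F Ψ ∧
      ∀ k l, ∃ U V : MvPolynomial (Fin (n + 1)) ℂ,
        F.B k l = aeval elemSym U + aeval elemSym V * disc n := by
  obtain ⟨F, Ψ, h0, h1, h2, h3, h4⟩ := Pool.Agent.L5helper21.RG.alt_simple hn hE
    (simp_of_simple hS) (by
      intro σ hσ
      obtain ⟨Φ, hΦ⟩ := hL σ hσ
      exact ⟨gop hΦ⟩)
  exact ⟨F, Ψ, ⟨h1, h2, h3, h4⟩, h0⟩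

theorem result {n : ℕ} (hn : 3 ≤ n) (E : Bundle2 n) (hE : ¬ E.Splits) :
    -- finite groups with a fixed vector, all of whose stabilisers are generated by elements with
    -- a large fixed space
    (∀ S : Set (GL (Fin (n + 1)) ℂ), Finite (Subgroup.closure S) → Symmetries E S →
      (∃ p ∈ fixedSpace S, p ≠ 0) →
      (∀ v : Fin (n + 1) → ℂ, v ≠ 0 → ∀ g ∈ Subgroup.closure S,
        (g : Matrix (Fin (n + 1)) (Fin (n + 1)) ℂ).mulVec v = v →
        g ∈ Subgroup.closure (largeAt S v)) → Descends E S) ∧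
    -- finite groups which fix a plane pointwise
    (∀ S : Set (GL (Fin (n + 1)) ℂ), Finite (Subgroup.closure S) → Symmetries E S →
      3 ≤ Module.finrank ℂ (fixedSpace S) → Descends E S) ∧
    -- the alternating group of the coordinates
    (4 ≤ n → IsSimple E →
      (∀ σ : Equiv.Perm (Fin (n + 1)), σ.IsThreeCycle → ∃ Φ, IsLift E (σ.permMatrix ℂ) Φ) →
      ∃ (F : Bundle2 n) (Ψ : Vec E → Vec F), IsIso E F Ψ ∧
        ∀ k l, ∃ U V : MvPolynomial (Fin (n + 1)) ℂ,
          F.B k l = aeval elemSym U + aeval elemSym V * disc n) :=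
  ⟨fun S hfin hS ⟨p, hpS, hp⟩ hst => general_case hn E hE S hfin hS p hp hpS hst,
    fun S hfin hS h3 => plane_case hn E hE S hfin hS h3,
    fun h4 hS hL => alternating_case h4 E hE hS hL⟩

end Pool.Agent.Results.MP_745d3a_ag.StabiliserDescent
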